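import Pool.Agent.H541.PP.Dens
import Pool.Agent.H541.PP.Dim3

/-!
# Mirror palindromes of the decimal digits of almost every real number

For `x = 0.a_1 a_2 a_3 ...` with `a_1 ≠ 0` let `pal N x` be the palindrome
`a_1 a_2 ... a_N a_(N+1) a_N ... a_2 a_1`.  If `a_1` is `2, 4, 5, 6` or `8`, then all these numbers are
divisible by `2` or by `5`.  For almost all other `x` infinitely many of the numbers `pal N x` have at
most four prime factors, and the number of these `N` up to `K` is `log K` up to powers of `log log K`.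
-/

set_option autoImplicit false

namespace Pool.Agent.Results.MP_540de1_nt.MetricLaw

open Filter MeasureTheory

/-- the palindrome with `2 N + 1` decimal digits whose first `N + 1` digits are the first `N + 1`
digits of `x` -/
noncomputable def pal (N : ℕ) (x : ℝ) : ℕ :=
  ⌊x * 10 ^ (N + 1)⌋₊ * 10 ^ N +
    Nat.ofDigits 10 (Nat.digits 10 (⌊x * 10 ^ (N + 1)⌋₊ / 10)).reverse

/-- every prime factor `p` of `n` satisfies `10 ^ N < p ^ s` -/
def Rough (s N n : ℕ) : Prop := ∀ p ∈ n.primeFactorsList, 10 ^ N < p ^ s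

/-- `n` has at most four prime factors, counted with multiplicity, and all of them are larger than
`10 ^ (N / 11)` -/
def Few (N n : ℕ) : Prop := n.primeFactorsList.length ≤ 4 ∧ Rough 11 N n

/-- the number of the `N ∈ 𝒩` with `1 ≤ N ≤ K` for which `pal N x` has at most four prime factors,
all larger than `10 ^ (N / 11)` -/
noncomputable def S (𝒩 : Set ℕ) (K : ℕ) (x : ℝ) : ℕ :=
  {N : ℕ | N ∈ 𝒩 ∧ 1 ≤ N ∧ N ≤ K ∧ Few N (pal N x)}.ncard

/-- the number of the `N` with `1 ≤ N ≤ K` for which all prime factors of `pal N x` are larger than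
`10 ^ (N / 12)` -/
noncomputable def T (K : ℕ) (x : ℝ) : ℕ :=
  {N : ℕ | 1 ≤ N ∧ N ≤ K ∧ Rough 12 N (pal N x)}.ncard

/-- the number of the `N` with `1 ≤ N ≤ K` for which `pal N x` is prime -/
noncomputable def Q (K : ℕ) (x : ℝ) : ℕ := {N : ℕ | 1 ≤ N ∧ N ≤ K ∧ (pal N x).Prime}.ncard

/-- the sum of `1 / N` over the `N ∈ 𝒩` with `1 ≤ N ≤ K` -/
noncomputable def H (𝒩 : Set ℕ) (K : ℕ) : ℝ :=
  ∑ N ∈ Finset.Icc 1 K, 𝒩.indicator (fun N => 1 / (N : ℝ)) N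

open Pool.Agent.H541.PP in
lemma pal_eq (N : ℕ) (x : ℝ) : pal N x = mirror N (pre (N + 1) x) := rfl

open Pool.Agent.H541.PP in
lemma S_eq (𝒩 : Set ℕ) (K : ℕ) (x : ℝ) : S 𝒩 K x = cntx (upTo 𝒩 K) x := by
  classical
  unfold S cntx
  rw [← Set.ncard_coe_finset]
  congr 1
  ext N
  unfold upTo
  simp only [Finset.coe_filter, Finset.mem_filter, Finset.mem_Icc, Set.mem_ofPred_eq]
  constructor
  · rintro ⟨h1, h2, h3, h4⟩
    exact ⟨⟨⟨h2, h3⟩, h1⟩, h4⟩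
  · rintro ⟨⟨⟨h2, h3⟩, h1⟩, h4⟩
    exact ⟨h1, h2, h3, h4⟩

open Pool.Agent.H541.PP in
lemma T_eq (K : ℕ) (x : ℝ) : T K x = cntR (Finset.Icc 1 K) x := by
  classical
  unfold T cntR
  rw [← Set.ncard_coe_finset]
  congr 1
  ext N
  simp only [Finset.coe_filter, Finset.mem_Icc, Set.mem_ofPred_eq]
  constructor
  · rintro ⟨h2, h3, h4⟩
    exact ⟨⟨h2, h3⟩, h4⟩
  · rintro ⟨⟨h2, h3⟩, h4⟩
    exact ⟨h2, h3, h4⟩

open Pool.Agent.H541.PP in
lemma H_eq (𝒩 : Set ℕ) (K : ℕ) : H 𝒩 K = harm 𝒩 K := by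
  classical
  unfold H
  rw [harm_def, Finset.sum_filter]
  apply Finset.sum_congr rfl
  intro N _
  rw [Set.indicator_apply]

lemma lead_eq (x : ℝ) : Pool.Agent.H541.PP.pre 1 x = ⌊x * 10⌋₊ := by
  unfold Pool.Agent.H541.PP.pre
  rw [pow_one]

lemma part0 (N : ℕ) (x : ℝ) (h0 : 1 / 10 ≤ x) (h1 : x < 1) :
    10 ^ (2 * N) ≤ pal N x ∧ pal N x < 10 ^ (2 * N + 1) ∧
      (Nat.digits 10 (pal N x)).reverse = Nat.digits 10 (pal N x) ∧
      pal N x / 10 ^ N = ⌊x * 10 ^ (N + 1)⌋₊ := by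
  have h2 : 10 ^ N ≤ Pool.Agent.H541.PP.pre (N + 1) x := Pool.Agent.H541.PP.pre_ge h0
  have h3 : Pool.Agent.H541.PP.pre (N + 1) x < 10 ^ (N + 1) :=
    Pool.Agent.H541.PP.pre_lt (by linarith) h1
  have h4 := Pool.Agent.H541.PP.mirror_div h3
  rw [pal_eq]
  have hq : 0 < 10 ^ N := by positivity
  refine ⟨?_, ?_, Pool.Agent.H541.PP.mirror_rev h2 h3, h4⟩
  · rw [← h4] at h2
    have := (Nat.le_div_iff_mul_le hq).1 h2
    calc 10 ^ (2 * N) = 10 ^ N * 10 ^ N := by rw [← pow_add]; congr 1; omega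
      _ ≤ _ := this
  · rw [← h4] at h3
    have := (Nat.div_lt_iff_lt_mul hq).1 h3
    calc _ < 10 ^ (N + 1) * 10 ^ N := this
      _ = 10 ^ (2 * N + 1) := by rw [← pow_add]; congr 1; omega

lemma few_rough {N n : ℕ} (h : Few N n) : Rough 12 N n := by
  intro p hp
  have h1 := h.2 p hp
  have hp1 : 1 ≤ p := (Nat.prime_of_mem_primeFactorsList hp).one_lt.le
  calc 10 ^ N < p ^ 11 := h1
    _ ≤ p ^ 12 := Nat.pow_le_pow_right hp1 (by norm_num)

lemma prime_rough {N : ℕ} (hN : 1 ≤ N) {x : ℝ} (h0 : 1 / 10 ≤ x) (h1 : x < 1)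
    (h : (pal N x).Prime) : Rough 12 N (pal N x) := by
  intro p hp
  rw [Nat.primeFactorsList_prime h, List.mem_singleton] at hp
  subst hp
  have h2 := (part0 N x h0 h1).1
  calc 10 ^ N < 10 ^ (2 * N) := Nat.pow_lt_pow_right (by norm_num) (by omega)
    _ ≤ pal N x := h2
    _ ≤ pal N x ^ 12 := Nat.le_self_pow (by norm_num) _

lemma fin_le (K : ℕ) (P : ℕ → Prop) : {N : ℕ | 1 ≤ N ∧ N ≤ K ∧ P N}.Finite :=
  (Set.finite_Icc 1 K).subset (fun _ hN => ⟨hN.1, hN.2.1⟩)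

lemma S_le_T (𝒩 : Set ℕ) (K : ℕ) (x : ℝ) : S 𝒩 K x ≤ T K x := by
  unfold S T
  exact Set.ncard_le_ncard (fun N hN => ⟨hN.2.1, hN.2.2.1, few_rough hN.2.2.2⟩) (fin_le K _)

lemma Q_le_T (K : ℕ) (x : ℝ) (h0 : 1 / 10 ≤ x) (h1 : x < 1) : Q K x ≤ T K x := by
  unfold Q T
  exact Set.ncard_le_ncard (fun N hN => ⟨hN.1, hN.2.1, prime_rough hN.1 h0 h1 hN.2.2⟩)
    (fin_le K _)

lemma infinite_of {𝒩 : Set ℕ} {c x : ℝ} (hc : 0 < c) (hH : Tendsto (H 𝒩) atTop atTop)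
    (h : ∃ᶠ K : ℕ in atTop, c * H 𝒩 K ≤ (S 𝒩 K x : ℝ)) :
    {N : ℕ | N ∈ 𝒩 ∧ Few N (pal N x)}.Infinite := by
  intro hfin
  have h1 : Tendsto (fun K => c * H 𝒩 K) atTop atTop := hH.const_mul_atTop hc
  obtain ⟨K, hK1, hK2⟩ := (h.and_eventually (h1.eventually_gt_atTop
    (({N : ℕ | N ∈ 𝒩 ∧ Few N (pal N x)}.ncard : ℝ)))).exists
  have h2 : S 𝒩 K x ≤ {N : ℕ | N ∈ 𝒩 ∧ Few N (pal N x)}.ncard := by
    unfold S
    exact Set.ncard_le_ncard (fun N hN => ⟨hN.1, hN.2.2.2⟩) hfin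
  have h3 : (S 𝒩 K x : ℝ) ≤ ({N : ℕ | N ∈ 𝒩 ∧ Few N (pal N x)}.ncard : ℝ) := by
    exact_mod_cast h2
  linarith

open Pool.Agent.H541.PP in
lemma sum_ind (𝒩 : Set ℕ) (M K : ℕ) [DecidablePred (fun N => M < N)] :
    ∑ N ∈ Finset.Ioc M K, 𝒩.indicator (fun N => 1 / ((N : ℝ) - (M : ℝ))) N =
      ∑ N ∈ (upTo 𝒩 K).filter (fun N => M < N), 1 / ((N : ℝ) - (M : ℝ)) := by
  classical
  have e1 : (upTo 𝒩 K).filter (fun N => M < N) =
      (Finset.Ioc M K).filter (fun N => N ∈ 𝒩) := by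
    ext N
    unfold upTo
    simp only [Finset.mem_filter, Finset.mem_Icc, Finset.mem_Ioc]
    constructor
    · rintro ⟨⟨⟨h1, h2⟩, h3⟩, h4⟩
      exact ⟨⟨h4, h2⟩, h3⟩
    · rintro ⟨⟨h4, h2⟩, h3⟩
      exact ⟨⟨⟨by omega, h2⟩, h3⟩, h4⟩
  rw [e1, Finset.sum_filter]
  apply Finset.sum_congr rfl
  intro N _
  rw [Set.indicator_apply]

lemma part6 (N : ℕ → ℕ) (e d : ℕ) (h12 : ∀ i, 12 * N i ≤ N (i + 1)) (hN0 : 1 ≤ N 0)
    (he : 1 ≤ e) (hd : d < 10 ^ e) (hl : (d / 10 ^ (e - 1)).Coprime 10) :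
    dimH {x : ℝ | (d : ℝ) / 10 ^ e ≤ x ∧ x < ((d : ℝ) + 1) / 10 ^ e ∧
      ∀ᶠ i in atTop, Few (N i) (pal (N i) x)} = 1 := by
  have hNi : ∀ i, i + 1 ≤ N i := by
    intro i
    induction i with
    | zero => exact hN0
    | succ i ih => have := h12 i; omega
  have hT : Tendsto N atTop atTop :=
    tendsto_atTop_mono (fun i => (Nat.le_succ i).trans (hNi i)) tendsto_id
  apply le_antisymm
  · rw [← Real.dimH_univ]
    exact dimH_mono (Set.subset_univ _)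
  · have key : ∀ s : NNReal, 0 < s → (s : ℝ) < 1 → (s : ENNReal) ≤
        dimH {x : ℝ | (d : ℝ) / 10 ^ e ≤ x ∧ x < ((d : ℝ) + 1) / 10 ^ e ∧
          ∀ᶠ i in atTop, Few (N i) (pal (N i) x)} := by
      intro s hs hs1
      have hD : d * 10 < 10 ^ (e + 1) := by
        rw [pow_succ]
        omega
      have hlD : Pool.Agent.H541.PP.Lead (e + 1) (d * 10) := by
        unfold Pool.Agent.H541.PP.Lead
        have h1 : 10 ^ (e + 1 - 1) = 10 * 10 ^ (e - 1) := by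
          rw [← pow_succ']; congr 1; omega
        rw [h1, ← Nat.div_div_eq_div_mul, Nat.mul_div_cancel _ (by norm_num)]
        exact hl
      refine (Pool.Agent.H541.PP.dimCyl (Nat.le_add_left 1 e) hD hlD N h12 hT hs hs1).trans
        (dimH_mono ?_)
      rintro x ⟨h1, h2, h3⟩
      have h10 : (0 : ℝ) < 10 ^ e := by positivity
      refine ⟨?_, ?_, h3⟩
      · refine le_trans (le_of_eq ?_) h1
        push_cast
        rw [pow_succ]
        field_simp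
      · refine lt_of_le_of_lt h2 ?_
        push_cast
        rw [pow_succ, div_lt_div_iff₀ (by positivity) (by positivity)]
        nlinarith
    refine ENNReal.le_of_forall_nnreal_lt ?_
    intro r hr
    have hr1 : (r : ℝ) < 1 := by exact_mod_cast hr
    rcases eq_or_lt_of_le (zero_le (a := r)) with h0 | h0
    · rw [← h0]; simp
    · exact key r h0 hr1

/-- **A metric law for mirror palindromes.**
(0) `pal N x` is the palindrome with `2 N + 1` digits which starts with the first `N + 1` digits of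
`x`.
(1) For almost every `x` with leading digit `1, 3, 7` or `9`, for all large `K`, at least
`log K / (log log K) ^ A` of the `N ≤ K` are such that `pal N x` has at most four prime factors, all
larger than `10 ^ (N / 11)`.
(2) For almost every `x`, for all large `K`, at most `A log K log log log K` of the `N ≤ K` are such
that `pal N x` has no prime factor up to `10 ^ (N / 12)`; this bounds also the number of the
prime numbers `pal N x` with `N ≤ K`.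
(3) If the sum of `1 / N` over `N ∈ 𝒩` converges, then, for almost every `x`, only finitely many
`N ∈ 𝒩` are such that `pal N x` has no prime factor up to `10 ^ (N / 12)`, or is prime.
(4) If `𝒩` has positive upper logarithmic density, then, for almost every `x` with leading digit
`1, 3, 7` or `9`, `pal N x` has at most four prime factors, all larger than `10 ^ (N / 11)`, for
infinitely many `N ∈ 𝒩`, and for infinitely many `K` even for at least `c H 𝒩 K` of the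
`N ∈ 𝒩` up to `K`, with an absolute constant `c > 0`.
(5) The same is true for every set `𝒩` with divergent sum of `1 / N` whose elements do not cluster
too much.
(6) Let `12 N_i ≤ N_(i+1)`. The numbers `x` with any given first digits (and leading digit `1`,
`3`, `7` or `9`) for which ALL but finitely many of the palindromes `pal N_i x` have at most four
prime factors, all larger than `10 ^ (N_i / 11)`, form a set of Hausdorff dimension one. -/
theorem result :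
    -- (0)
    (∀ (N : ℕ) (x : ℝ), 1 / 10 ≤ x → x < 1 →
      10 ^ (2 * N) ≤ pal N x ∧ pal N x < 10 ^ (2 * N + 1) ∧
      (Nat.digits 10 (pal N x)).reverse = Nat.digits 10 (pal N x) ∧
      pal N x / 10 ^ N = ⌊x * 10 ^ (N + 1)⌋₊) ∧
    -- (1)
    (∃ A : ℕ, ∀ᵐ x : ℝ, 1 / 10 ≤ x → x < 1 → ⌊x * 10⌋₊.Coprime 10 →
      ∀ᶠ K : ℕ in atTop,
        Real.log (K : ℝ) / Real.log (Real.log (K : ℝ)) ^ A ≤ (S Set.univ K x : ℝ)) ∧
    -- (2)
    (∃ A : ℝ, ∀ᵐ x : ℝ, 1 / 10 ≤ x → x < 1 → ∀ᶠ K : ℕ in atTop,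
      S Set.univ K x ≤ T K x ∧ Q K x ≤ T K x ∧
      (T K x : ℝ) ≤ A * (Real.log (K : ℝ) * Real.log (Real.log (Real.log (K : ℝ))))) ∧
    -- (3)
    (∀ 𝒩 : Set ℕ, Summable (fun N : ℕ => 𝒩.indicator (fun N => 1 / (N : ℝ)) N) →
      ∀ᵐ x : ℝ, 1 / 10 ≤ x → x < 1 → ∀ᶠ N : ℕ in atTop, N ∈ 𝒩 →
        ¬ Rough 12 N (pal N x) ∧ ¬ (pal N x).Prime) ∧
    -- (4)
    (∃ c : ℝ, 0 < c ∧ ∀ 𝒩 : Set ℕ,
      (∃ δ : ℝ, 0 < δ ∧ ∃ᶠ K : ℕ in atTop, δ * Real.log (K : ℝ) ≤ H 𝒩 K) →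
      ∀ᵐ x : ℝ, 1 / 10 ≤ x → x < 1 → ⌊x * 10⌋₊.Coprime 10 →
        {N : ℕ | N ∈ 𝒩 ∧ Few N (pal N x)}.Infinite ∧
        ∃ᶠ K : ℕ in atTop, c * H 𝒩 K ≤ (S 𝒩 K x : ℝ)) ∧
    -- (5)
    (∃ c : ℝ, 0 < c ∧ ∀ (𝒩 : Set ℕ) (B : ℝ), Tendsto (H 𝒩) atTop atTop →
      (∃ᶠ K : ℕ in atTop, ∀ M ∈ 𝒩, ∑ N ∈ Finset.Ioc M K,
        𝒩.indicator (fun N => 1 / ((N : ℝ) - (M : ℝ))) N ≤ B * (1 + H 𝒩 K)) →
      ∀ᵐ x : ℝ, 1 / 10 ≤ x → x < 1 → ⌊x * 10⌋₊.Coprime 10 →
        {N : ℕ | N ∈ 𝒩 ∧ Few N (pal N x)}.Infinite ∧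
        ∃ᶠ K : ℕ in atTop, c * H 𝒩 K ≤ (S 𝒩 K x : ℝ)) ∧
    -- (6)
    (∀ (N : ℕ → ℕ) (e d : ℕ), (∀ i, 12 * N i ≤ N (i + 1)) → 1 ≤ N 0 → 1 ≤ e → d < 10 ^ e →
      (d / 10 ^ (e - 1)).Coprime 10 →
      dimH {x : ℝ | (d : ℝ) / 10 ^ e ≤ x ∧ x < ((d : ℝ) + 1) / 10 ^ e ∧
        ∀ᶠ i in atTop, Few (N i) (pal (N i) x)} = 1) := by
  have hHeq : ∀ 𝒩 : Set ℕ, H 𝒩 = Pool.Agent.H541.PP.harm 𝒩 := fun 𝒩 => funext (H_eq 𝒩)
  refine ⟨part0, ?_, ?_, ?_, ?_, ?_, part6⟩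
  · obtain ⟨A, hA⟩ := Pool.Agent.H541.PP.lowAll
    refine ⟨A, ?_⟩
    filter_upwards [hA] with x hx h0 h1 hl
    filter_upwards [hx (by linarith) h1 (by rw [lead_eq]; exact hl)] with K hK
    refine hK.trans ?_
    rw [S_eq]
    have : Finset.Icc 1 K = Pool.Agent.H541.PP.upTo Set.univ K := by
      classical
      ext N
      unfold Pool.Agent.H541.PP.upTo
      simp only [Finset.mem_filter, Set.mem_univ, and_true]
    rw [this]
  · obtain ⟨A, hA0, hA⟩ := Pool.Agent.H541.PP.upAll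
    refine ⟨A, ?_⟩
    filter_upwards [hA] with x hx h0 h1
    filter_upwards [hx h0 h1] with K hK
    refine ⟨S_le_T _ K x, Q_le_T K x h0 h1, ?_⟩
    rw [T_eq]
    exact hK
  · intro 𝒩 hs
    filter_upwards [Pool.Agent.H541.PP.convN 𝒩 hs] with x hx h0 h1
    filter_upwards [hx h0 h1, eventually_ge_atTop 1] with N hN hN1 hmem
    have h2 : ¬ Rough 12 N (pal N x) := hN hmem
    exact ⟨h2, fun hp => h2 (prime_rough hN1 h0 h1 hp)⟩
  · obtain ⟨c, hc, h⟩ := Pool.Agent.H541.PP.divD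
    refine ⟨c, hc, ?_⟩
    rintro 𝒩 ⟨δ, hδ, hf⟩
    rw [hHeq] at hf
    have hT : Tendsto (H 𝒩) atTop atTop := by
      rw [hHeq]
      exact Pool.Agent.H541.PP.harm_tendsto hδ hf
    filter_upwards [h 𝒩 ⟨δ, hδ, hf⟩] with x hx h0 h1 hl
    have h2 : ∃ᶠ K : ℕ in atTop, c * H 𝒩 K ≤ (S 𝒩 K x : ℝ) := by
      refine (hx (by linarith) h1 (by rw [lead_eq]; exact hl)).mono ?_
      intro K hK
      rw [S_eq, H_eq]
      exact hK
    exact ⟨infinite_of hc hT h2, h2⟩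
  · obtain ⟨c, hc, h⟩ := Pool.Agent.H541.PP.divN
    refine ⟨c, hc, ?_⟩
    intro 𝒩 B hT hf
    have hT' : Tendsto (Pool.Agent.H541.PP.harm 𝒩) atTop atTop := by
      rw [← hHeq]
      exact hT
    have hf' : ∃ᶠ K in atTop, ∀ M : ℕ, M ∈ 𝒩 →
        ∑ N ∈ (Pool.Agent.H541.PP.upTo 𝒩 K).filter (fun N => M < N),
          1 / ((N : ℝ) - (M : ℝ)) ≤ max B 0 * (1 + Pool.Agent.H541.PP.harm 𝒩 K) := by
      refine hf.mono ?_
      intro K hK M hM
      have h1 := hK M hM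
      rw [sum_ind, H_eq] at h1
      refine h1.trans ?_
      apply mul_le_mul_of_nonneg_right (le_max_left _ _)
      have : 0 ≤ Pool.Agent.H541.PP.harm 𝒩 K := by
        rw [Pool.Agent.H541.PP.harm_def]
        exact Finset.sum_nonneg (fun N _ => by positivity)
      linarith
    filter_upwards [h 𝒩 (max B 0) (le_max_right _ _) hT' hf'] with x hx h0 h1 hl
    have h2 : ∃ᶠ K : ℕ in atTop, c * H 𝒩 K ≤ (S 𝒩 K x : ℝ) := by
      refine (hx (by linarith) h1 (by rw [lead_eq]; exact hl)).mono ?_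
      intro K hK
      rw [S_eq, H_eq]
      exact hK
    exact ⟨infinite_of hc hT h2, h2⟩

end Pool.Agent.Results.MP_540de1_nt.MetricLaw
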