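import Pool.Agent.H559.PA.PalF

set_option autoImplicit false

/-!
# The palindromic primes in the random sieve model

For every prime `q` a residue class `a q` modulo `q` is drawn uniformly and independently. The random primes are the
integers `v ≥ 3` which are, for all primes `q ≤ z v`, not in the class `0` modulo `q` if `q ≤ (log v) ^ c`, and not in the
class `a q` modulo `q` if `q > (log v) ^ c`. This is the model of Banks, Ford and Tao (*Large prime gaps and
probabilistic models*) in which the small primes sieve out the class `0` as they do for the true primes. The sieving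
limit `z` is any nondecreasing function for which `∏_{q ≤ z v} (1 - 1 / q)` is asymptotic to `1 / log v`; the choice `zBFT`
of Banks, Ford and Tao is one of them. The exponent `c` is any number larger than `1`.

The theorem: almost surely
* there are infinitely many palindromic random primes (in base `10`), and all large ones have an odd number of digits;
* the number of the palindromic random primes with exactly `2 L + 1` digits is asymptotic to `5 · 10 ^ L / (L log 10)`;
  they are equidistributed in the residue classes coprime to `m`, for every `m` coprime to `10`;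
* the first (= last) digit is `1`, `3`, `7`, `9` in asymptotically equal proportions, also within each residue class.

The number `9 · 10 ^ L` of all palindromes with `2 L + 1` digits is about the square root of their size, and the random
sieve is not independent on such a sparse set. The proof gives the law of large numbers from the level of distribution of
the palindromes (to moduli up to a power of `L`, from the library), the fundamental lemma of the sieve for the primes
`q ≤ (log v) ^ c`, and a bound for the pair correlations of the random sieve on the set.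
-/

open MeasureTheory ProbabilityTheory Filter Topology

namespace Pool.Agent.Results.MP_540de1_nt.PalindromicRandomPrimes

/-- `V m = ∏ (1 - 1 / q)` over the primes `q ≤ m` -/
noncomputable def V (m : ℕ) : ℝ := ∏ q ∈ (Finset.range (m + 1)).filter Nat.Prime, (1 - 1 / (q : ℝ))

/-- the classes `a q` are independent, and `a q` is uniform on `0, …, q - 1` for every prime `q` -/
structure Model {Ω : Type} [MeasurableSpace Ω] (P : Measure Ω) (a : ℕ → Ω → ℕ) : Prop where
  measurable : ∀ q, Measurable (a q)
  independent : iIndepFun a P
  uniform : ∀ q, q.Prime → ∀ r < q, P.real {ω | a q ω = r} = 1 / q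

/-- the sieving limit of Banks, Ford and Tao: the largest `m` with `∏_{q ≤ m} (1 - 1 / q)⁻¹ ≤ log n` -/
noncomputable def zBFT (n : ℕ) : ℕ := sSup {m : ℕ | (V m)⁻¹ ≤ Real.log n}

/-- the admissible sieving limits: the density of the random primes near `v` is asymptotic to `1 / log v` -/
def Limit (z : ℕ → ℕ) : Prop := Monotone z ∧ Tendsto (fun v => V (z v) * Real.log v) atTop (𝓝 1)

open Classical in
/-- the set of the random primes of a sample -/
def R {Ω : Type} (z : ℕ → ℕ) (c : ℝ) (a : ℕ → Ω → ℕ) (ω : Ω) : Set ℕ :=
  {v | 3 ≤ v ∧ ∀ q ≤ z v, q.Prime → v % q ≠ if (q : ℝ) ≤ Real.log v ^ c then 0 else a q ω}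

/-- the numbers with a palindromic decimal expansion -/
def Palindromic (v : ℕ) : Prop := (Nat.digits 10 v).reverse = Nat.digits 10 v

/-- the number of the palindromic elements of `A` with exactly `k` digits which are congruent to `r` modulo `m` -/
noncomputable def N (A : Set ℕ) (k m r : ℕ) : ℕ :=
  {v | v ∈ A ∧ Palindromic v ∧ (Nat.digits 10 v).length = k ∧ v % m = r % m}.ncard

/-- the same with the last (and first) digit `d` -/
noncomputable def Nd (A : Set ℕ) (d k m r : ℕ) : ℕ :=
  {v | v ∈ A ∧ Palindromic v ∧ (Nat.digits 10 v).length = k ∧ v % 10 = d ∧ v % m = r % m}.ncard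

theorem result :
    (∃ (Ω : Type) (_ : MeasurableSpace Ω) (P : Measure Ω) (a : ℕ → Ω → ℕ), Model P a) ∧ Limit zBFT ∧
    ∀ z : ℕ → ℕ, Limit z → ∀ c : ℝ, 1 < c →
      ∀ (Ω : Type) [MeasurableSpace Ω] (P : Measure Ω) (a : ℕ → Ω → ℕ), Model P a →
        ∀ᵐ ω ∂P,
          {v | v ∈ R z c a ω ∧ Palindromic v}.Infinite ∧
          (∀ᶠ v in atTop, v ∈ R z c a ω → Palindromic v → Odd (Nat.digits 10 v).length) ∧
          ∀ m r : ℕ, 0 < m → m.Coprime 10 → r.Coprime m →
            Tendsto (fun L : ℕ => (N (R z c a ω) (2 * L + 1) m r : ℝ) / (5 * 10 ^ L / (L * Real.log 10) / m.totient))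
              atTop (𝓝 1) ∧
            ∀ d ∈ ({1, 3, 7, 9} : Set ℕ),
              Tendsto (fun L : ℕ => (Nd (R z c a ω) d (2 * L + 1) m r : ℝ) /
                (5 * 10 ^ L / (L * Real.log 10) / m.totient / 4)) atTop (𝓝 1) := by
  classical
  refine ⟨?_, ⟨Pool.Agent.T2H32.BF.z0_mono, Pool.Agent.T2H32.BF.z0_lim⟩, ?_⟩
  · obtain ⟨Ω, i, P, a, h⟩ := Pool.Agent.T2H32.BF.exists_model
    exact ⟨Ω, i, P, a, h.measurable, h.independent, h.uniform⟩
  · intro z hz c hc1 Ω _ P a hmod
    have h : Pool.Agent.T2H32.BF.Model P a := ⟨hmod.measurable, hmod.independent, hmod.uniform⟩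
    filter_upwards [Pool.Agent.H559.PA.pal_all h z hz c hc1] with ω hω
    have e : R z c a ω = Pool.Agent.H559.HY.RS z (Pool.Agent.H559.HY.WW c) (fun p => a p ω) := by
      ext v
      simp only [R, Pool.Agent.H559.HY.RS, Set.mem_ofPred_eq]
      refine and_congr_right fun hv => ?_
      refine forall_congr' fun q => forall_congr' fun _ => forall_congr' fun _ => ?_
      have h0 : 0 ≤ Real.log v ^ c := Real.rpow_nonneg (Real.log_nonneg (by
        have : 1 ≤ v := by omega
        exact_mod_cast this)) c
      have h1 : (q : ℝ) ≤ Real.log v ^ c ↔ q ≤ Pool.Agent.H559.HY.WW c v := (Nat.le_floor_iff h0).symm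
      by_cases h2 : (q : ℝ) ≤ Real.log v ^ c
      · rw [if_pos h2, if_pos (h1.1 h2)]
      · rw [if_neg h2, if_neg (fun h3 => h2 (h1.2 h3))]
    rw [e]
    set A := Pool.Agent.H559.HY.RS z (Pool.Agent.H559.HY.WW c) (fun p => a p ω) with hA
    have hlog : 0 < Real.log 10 := Real.log_pos (by norm_num)
    have hmem : ∀ L v : ℕ, v ∈ Pool.Agent.H861R2.Pal.palin L ↔ Palindromic v ∧ (Nat.digits 10 v).length = 2 * L + 1 := by
      intro L v
      unfold Pool.Agent.H861R2.Pal.palin Palindromic
      rw [Finset.mem_filter, Finset.mem_range]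
      have h1 := Nat.digits_length_le_iff (b := 10) (k := 2 * L + 1) (by norm_num) v
      have h2 := Nat.lt_digits_length_iff (b := 10) (k := 2 * L) (by norm_num) v
      constructor
      · rintro ⟨a1, a2, a3⟩
        have b1 := h1.2 a1
        have b2 := h2.2 a2
        exact ⟨a3, by omega⟩
      · rintro ⟨a1, a2⟩
        exact ⟨h1.1 (by omega), h2.1 (by omega), a1⟩
    have hN : ∀ L m r : ℕ, N A (2 * L + 1) m r =
        ((Pool.Agent.H861R2.Pal.palin L).filter (fun v => v ∈ A ∧ v % m = r % m)).card := by
      intro L m r
      unfold N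
      rw [← Set.ncard_coe_finset]
      congr 1
      ext v
      rw [Finset.coe_filter, Set.mem_ofPred_eq, Set.mem_ofPred_eq, hmem]
      tauto
    have hNd : ∀ d L m r : ℕ, Nd A d (2 * L + 1) m r =
        ((Pool.Agent.H861R2.Pal.palin L).filter (fun v => v ∈ A ∧ v % 10 = d ∧ v % m = r % m)).card := by
      intro d L m r
      unfold Nd
      rw [← Set.ncard_coe_finset]
      congr 1
      ext v
      rw [Finset.coe_filter, Set.mem_ofPred_eq, Set.mem_ofPred_eq, hmem]
      tauto
    refine ⟨?_, ?_, fun m r hm hmc hr => ?_⟩
    · rw [Set.infinite_iff_exists_gt]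
      intro n
      have h1 := (hω 1 0 one_pos (Nat.coprime_one_left 10) (Nat.coprime_one_right 0)).2
      rw [Nat.totient_one, Nat.cast_one] at h1
      obtain ⟨L, h2, h3⟩ := ((h1.eventually (lt_mem_nhds (show (0 : ℝ) < 5 / 1 by norm_num))).and
        (eventually_ge_atTop n)).exists
      have h4 : 0 < ((Pool.Agent.H861R2.Pal.palin L).filter (fun v => v ∈ A ∧ v % 1 = 0 % 1)).card := by
        by_contra hcon
        push Not at hcon
        have h5 : ((Pool.Agent.H861R2.Pal.palin L).filter (fun v => v ∈ A ∧ v % 1 = 0 % 1)).card = 0 := by omega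
        rw [h5] at h2
        simp at h2
      obtain ⟨v, hv⟩ := Finset.card_pos.1 h4
      rw [Finset.mem_filter] at hv
      refine ⟨v, ⟨hv.2.1, ((hmem L v).1 hv.1).1⟩, ?_⟩
      have h5 : 10 ^ (2 * L) ≤ v := by
        have := hv.1
        unfold Pool.Agent.H861R2.Pal.palin at this
        rw [Finset.mem_filter] at this
        exact this.2.1
      have h6 : 2 * L < 10 ^ (2 * L) := Nat.lt_pow_self (by norm_num)
      have h7 : L ≤ 2 * L := by omega
      omega
    · filter_upwards [Pool.Agent.H559.PA.no_small z hz c hc1 (fun p => a p ω) 11 (by norm_num)] with v h1 h2 h3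
      by_contra hcon
      rw [Nat.not_odd_iff_even] at hcon
      exact h1 h2 (Nat.eleven_dvd_of_palindrome (List.Palindrome.of_reverse_eq h3) hcon)
    · have hφ : (0 : ℝ) < m.totient := by exact_mod_cast Nat.totient_pos.2 hm
      obtain ⟨h1, h2⟩ := hω m r hm hmc hr
      constructor
      · have h3 := h2.const_mul ((m.totient : ℝ) / 5)
        have e1 : (m.totient : ℝ) / 5 * (5 / m.totient) = 1 := by field_simp
        rw [e1] at h3
        refine h3.congr' ?_
        filter_upwards [eventually_ge_atTop 1] with L hL
        have hL0 : (0 : ℝ) < L := by exact_mod_cast hL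
        rw [hN]
        field_simp
      · intro d hd
        have hd' : d ∈ Pool.Agent.H559.PA.TD := by
          unfold Pool.Agent.H559.PA.TD
          simp only [Set.mem_insert_iff, Set.mem_singleton_iff] at hd
          rcases hd with rfl | rfl | rfl | rfl <;> decide
        have h3 := (h1 d hd').const_mul ((m.totient : ℝ) * 4 / 5)
        have e1 : (m.totient : ℝ) * 4 / 5 * (5 / 4 / m.totient) = 1 := by field_simp
        rw [e1] at h3
        refine h3.congr' ?_
        filter_upwards [eventually_ge_atTop 1] with L hL
        have hL0 : (0 : ℝ) < L := by exact_mod_cast hL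
        rw [hNd]
        field_simp

end Pool.Agent.Results.MP_540de1_nt.PalindromicRandomPrimes
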