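import Pool.Agent.H679.DC.Pc

/-!
# Almost prime palindromes with the digits 0 and 1 only, and with permuted digits

* There are `4 ^ M * 2` decimal palindromes with exactly `4 M + 3` digits, all of them `0` or `1`. At least `κ 4 ^ M / M` of
  them have at most `r` prime factors, all of them greater than `10 ^ (M / r)`, and at most `C 4 ^ M / M` of them are primes.
* The same is true if the middle digit and the numbers of digits `1` at the places whose distance from the middle is odd,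
  and even, are all exactly prescribed: `e`, `k` and `l` with `ε M ≤ k, l ≤ (1 - ε) M`. There are
  `binom (M, k) binom (M, l)` such palindromes, all in one residue class `2 k + 20 l + 10 e + 2` modulo `99`; so the
  condition that this is coprime to `33` is necessary.
* More generally let `P` be ANY decimal palindrome with `2 N + 1` digits; we permute in all possible ways the digits of `P`
  at the places `N + j` with odd `j < 2 M`, and those with even `j`, `2 ≤ j ≤ 2 M` (and symmetrically at the places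
  `N - j`), where `N / D ≤ M < N / 2`. The same is true for the palindromes `n` which arise in this way, if `P` is coprime
  to `330` (necessary, since `n ≡ P` modulo `990`) and if both among the odd and among the even `j` there are two consecutive
  digits which occur at least `ε M` times. The same for `n + h`, `h ∈ H`, with the order of magnitude `1 / M ^ |H|`.
-/

set_option autoImplicit false

namespace Pool.Agent.Results.MP_540de1_nt.ZerosAndOnes

open Filter

/-- the palindromes with exactly `2 N + 1` decimal digits -/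
def Pal (N : ℕ) : Set ℕ :=
  {n | 10 ^ (2 * N) ≤ n ∧ n < 10 ^ (2 * N + 1) ∧ (Nat.digits 10 n).reverse = Nat.digits 10 n}

/-- the number of the odd `j < 2 M` for which the digit of `n` at the place `N + j` is `c` -/
def oddCount (N M n c : ℕ) : ℕ := ((Finset.range M).filter (fun i => n / 10 ^ (N + (2 * i + 1)) % 10 = c)).card

/-- the number of the even `j`, `2 ≤ j ≤ 2 M`, for which the digit of `n` at the place `N + j` is `c` -/
def evenCount (N M n c : ℕ) : ℕ := ((Finset.range M).filter (fun i => n / 10 ^ (N + (2 * i + 2)) % 10 = c)).card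

/-- the palindromes which arise from the palindrome `P` by permuting the digits at the places `N + j` with odd `j < 2 M`,
and the digits at the places `N + j` with even `j`, `2 ≤ j ≤ 2 M` (and likewise at the places `N - j`) -/
def Perm (N M P : ℕ) : Set ℕ :=
  {n | n ∈ Pal N ∧ (∀ j, j = 0 ∨ 2 * M < j → n / 10 ^ (N + j) % 10 = P / 10 ^ (N + j) % 10) ∧
    (∀ c, oddCount N M n c = oddCount N M P c) ∧ ∀ c, evenCount N M n c = evenCount N M P c}

/-- among the odd, and among the even `j`, two consecutive digits occur at least `ε M` times -/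
def Rich (ε : ℝ) (N M P : ℕ) : Prop :=
  (∃ d : ℕ, d + 1 < 10 ∧ ε * M ≤ oddCount N M P d ∧ ε * M ≤ oddCount N M P (d + 1)) ∧
  ∃ d : ℕ, d + 1 < 10 ∧ ε * M ≤ evenCount N M P d ∧ ε * M ≤ evenCount N M P (d + 1)

/-- the palindromes with exactly `4 M + 3` decimal digits, all of them `0` or `1` -/
def ZeroOne (M : ℕ) : Set ℕ := {n | n ∈ Pal (2 * M + 1) ∧ ∀ d ∈ Nat.digits 10 n, d ≤ 1}

/-- those with middle digit `e` and with `k` and `l` digits `1` at the odd and at the even distances `1, …, 2 M` on one side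
of the middle -/
def Class (M e k l : ℕ) : Set ℕ :=
  {n | n ∈ ZeroOne M ∧ n / 10 ^ (2 * M + 1) % 10 = e ∧ oddCount (2 * M + 1) M n 1 = k ∧
    evenCount (2 * M + 1) M n 1 = l}

/-- `n` has at most `r` prime factors, counted with multiplicity, all of them greater than `Y ^ (1 / r)` -/
def AlmostPrime (Y r n : ℕ) : Prop := (∀ p : ℕ, p.Prime → p ∣ n → Y < p ^ r) ∧ n.primeFactorsList.length ≤ r

/-- **Almost prime palindromes with digits `0` and `1`, with prescribed numbers of ones, and with permuted digits.** -/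
theorem result :
    (∃ r : ℕ, ∃ κ C : ℝ, 0 < κ ∧ 0 < C ∧ ∀ᶠ M : ℕ in atTop,
      κ * 4 ^ M / (M : ℝ) ≤ (Set.ncard {n | n ∈ ZeroOne M ∧ AlmostPrime (10 ^ M) r n} : ℝ) ∧
      (Set.ncard {n | n ∈ ZeroOne M ∧ n.Prime} : ℝ) ≤ C * 4 ^ M / (M : ℝ)) ∧
    (∀ ε : ℝ, 0 < ε → ε ≤ 1 → ∃ r : ℕ, ∃ κ C : ℝ, 0 < κ ∧ 0 < C ∧ ∀ᶠ M : ℕ in atTop, ∀ e k l : ℕ, e ≤ 1 →
      ε * M ≤ k → (k : ℝ) ≤ (1 - ε) * M → ε * M ≤ l → (l : ℝ) ≤ (1 - ε) * M →
      (Class M e k l).ncard = M.choose k * M.choose l ∧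
      (∀ n ∈ Class M e k l, n ≡ 2 * k + 20 * l + 10 * e + 2 [MOD 99]) ∧
      ((2 * k + 20 * l + 10 * e + 2).Coprime 33 →
      κ * (M.choose k * M.choose l) / (M : ℝ) ≤ (Set.ncard {n | n ∈ Class M e k l ∧ AlmostPrime (10 ^ M) r n} : ℝ) ∧
      (Set.ncard {n | n ∈ Class M e k l ∧ n.Prime} : ℝ) ≤ C * (M.choose k * M.choose l) / (M : ℝ))) ∧
    (∀ H : Finset ℕ, H.Nonempty → (∀ p : ℕ, p.Prime → ∃ m : ℕ, ∀ h ∈ H, ¬ p ∣ m + h) →
      ∀ ε : ℝ, 0 < ε → ε ≤ 1 → ∀ D : ℕ, ∃ r : ℕ, ∃ κ C : ℝ, 0 < κ ∧ 0 < C ∧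
      ∀ᶠ M : ℕ in atTop, ∀ N P : ℕ, 2 * M < N → N ≤ D * M → P ∈ Pal N → Rich ε N M P →
      0 < (Perm N M P).ncard ∧ (∀ n ∈ Perm N M P, n ≡ P [MOD 990]) ∧
      ((∀ h ∈ H, (P + h).Coprime 330) →
      κ * (Perm N M P).ncard / (M : ℝ) ^ H.card ≤
        (Set.ncard {n | n ∈ Perm N M P ∧ ∀ h ∈ H, AlmostPrime (10 ^ M) r (n + h)} : ℝ) ∧
      (Set.ncard {n | n ∈ Perm N M P ∧ ∀ h ∈ H, (n + h).Prime} : ℝ) ≤ C * (Perm N M P).ncard / (M : ℝ) ^ H.card)) := by
  refine ⟨?_, fun ε hε hε1 => ?_, fun H hH hadm ε hε hε1 D => ?_⟩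
  · obtain ⟨r, -, κ, hκ, h1⟩ := Pool.Agent.H679.DC.z1_lower (b := 10) (by norm_num)
    obtain ⟨C, hC, h2⟩ := Pool.Agent.H679.DC.z1_upper (b := 10) (by norm_num)
    exact ⟨r, κ, C, hκ, hC, h1.and h2⟩
  · obtain ⟨r, -, κ, C, hκ, hC, h⟩ := Pool.Agent.H679.DC.cl_bounds (b := 10) (by norm_num) hε hε1
    refine ⟨r, κ, C, hκ, hC, ?_⟩
    filter_upwards [h, eventually_ge_atTop 1] with M hM hM1
    intro e k l he hk1 hk2 hl1 hl2
    have hMr : (1 : ℝ) ≤ M := by exact_mod_cast hM1
    have hkM : k ≤ M := by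
      have : (k : ℝ) ≤ M := hk2.trans (by nlinarith)
      exact_mod_cast this
    have hlM : l ≤ M := by
      have : (l : ℝ) ≤ M := hl2.trans (by nlinarith)
      exact_mod_cast this
    have hcl : Class M e k l = Pool.Agent.H679.DC.Cl 10 M e k l := by
      ext n
      exact ⟨fun h => ⟨h.1.1, h.1.2, h.2⟩, fun h => ⟨⟨h.1, h.2.1⟩, h.2.2⟩⟩
    have e1 : 2 * k + 2 * 10 * l + 10 * e + 2 = 2 * k + 20 * l + 10 * e + 2 := by ring
    rw [hcl]
    refine ⟨Pool.Agent.H679.DC.Cl_card (b := 10) (by norm_num) he hkM hlM, fun n hn => ?_, fun hcop => ?_⟩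
    · have h3 := (Pool.Agent.H679.DC.Cl_mod (b := 10) (by norm_num) he hkM hlM hn).1
      rw [e1] at h3
      exact h3
    · have hcop' : (2 * k + 2 * 10 * l + 10 * e + 2).Coprime (10 ^ 2 - 1) := by
        have e2 : 10 ^ 2 - 1 = 33 * 3 := by norm_num
        rw [e1, e2]
        exact Nat.Coprime.mul_right hcop (hcop.coprime_dvd_right (by norm_num))
      exact hM e k l he hk1 hk2 hl1 hl2 hcop'
  · obtain ⟨r, -, κ, C, hκ, hC, h⟩ := Pool.Agent.H679.DC.perm_pal (b := 10) (by norm_num) hε hε1 H hH.card_pos hadm D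
    refine ⟨r, κ, C, hκ, hC, ?_⟩
    filter_upwards [h] with M hM
    intro N P h1 h2 h3 h4
    refine ⟨?_, fun n hn => ?_, fun h5 => ?_⟩
    · exact (Set.ncard_pos (Pool.Agent.H679.DC.PermPal_finite 10 N M P)).2
        ⟨P, Pool.Agent.H679.DC.self_mem_Perm (b := 10) h3⟩
    · obtain ⟨m1, m2⟩ := Pool.Agent.H679.DC.PermPal_mod (b := 10) (by norm_num) h1 h3 hn
      have h6 : n ≡ P [MOD 99 * 10] := (Nat.modEq_and_modEq_iff_modEq_mul (by norm_num)).1 ⟨m1, m2⟩
      exact h6
    · have h6 : ∀ a ∈ H, (P + a).Coprime (10 * (10 ^ 2 - 1)) := by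
        intro a ha
        have e2 : 10 * (10 ^ 2 - 1) = 330 * 3 := by norm_num
        rw [e2]
        exact Nat.Coprime.mul_right (h5 a ha) ((h5 a ha).coprime_dvd_right (by norm_num))
      exact (hM N P h1 h2 h3 h4 h6).2

end Pool.Agent.Results.MP_540de1_nt.ZerosAndOnes
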